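import Pool.Agent.helper97.PER.R3

/-!
# A comparison inequality for permanents of tensor products

`per (J_k ⊗ A ⊗ B)` against `per A` and `per (J_(kn) ⊗ B)`, with consequences for the
inequality of Liang, So and Zhang and for Pate's inequality.
-/

set_option autoImplicit false
open scoped ComplexOrder

namespace Pool.Agent.Results.MP_2dd521_co.CoherentComparison

/-- the `k × k` matrix with all entries `1` -/
def J (k : ℕ) : Matrix (Fin k) (Fin k) ℂ := Matrix.of fun _ _ => 1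

/-- `min (n ^ n) (r (r + 1) ⋯ (r + n - 1))` for an `n × n` matrix of rank `r` -/
noncomputable def om {n : ℕ} (A : Matrix (Fin n) (Fin n) ℂ) : ℕ :=
  min (n ^ n) (A.rank.ascFactorial n)

/-- For positive semidefinite `A` (`n × n`) and `B` (`m × m`):
* `(per A)^(km) per (J_(kn) ⊗ B) ≤ om A ^ (km) per (J_k ⊗ A ⊗ B)` for all `k`;
* `(km)! (per B)^k ≤ om B ^ k per (J_k ⊗ B)` for all `k`;
* `(nm)! (per A)^m (per B)^n ≤ om A ^ m om B ^ n per (A ⊗ B)`;
* `(n!)^m (per A)^m (per B)^n ≤ om A ^ m (5/4)^(m (n - 2)) per (A ⊗ B)`;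
* `(per A)^m (per B)^n ≤ per (A ⊗ B)` if `rank A ≤ n / 6` and `rank B ≤ m / 6`. -/
theorem result (n m : ℕ) (A : Matrix (Fin n) (Fin n) ℂ) (B : Matrix (Fin m) (Fin m) ℂ)
    (hA : A.PosSemidef) (hB : B.PosSemidef) :
    (∀ k : ℕ, A.permanent ^ (k * m) * (Matrix.kronecker (J (k * n)) B).permanent ≤
      (om A : ℂ) ^ (k * m) * (Matrix.kronecker (J k) (Matrix.kronecker A B)).permanent) ∧
    (∀ k : ℕ, (((k * m).factorial : ℕ) : ℂ) * B.permanent ^ k ≤
      (om B : ℂ) ^ k * (Matrix.kronecker (J k) B).permanent) ∧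
    ((((n * m).factorial : ℕ) : ℂ) * (A.permanent ^ m * B.permanent ^ n) ≤
      (om A : ℂ) ^ m * (om B : ℂ) ^ n * (Matrix.kronecker A B).permanent) ∧
    (((n.factorial : ℕ) : ℂ) ^ m * 4 ^ (m * (n - 2)) * (A.permanent ^ m * B.permanent ^ n) ≤
      (om A : ℂ) ^ m * 5 ^ (m * (n - 2)) * (Matrix.kronecker A B).permanent) ∧
    (6 * A.rank ≤ n → 6 * B.rank ≤ m →
      A.permanent ^ m * B.permanent ^ n ≤ (Matrix.kronecker A B).permanent) :=
  ⟨fun k => Pool.Agent.helper97.PER.comp n m k A hA B hB,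
    fun k => Pool.Agent.helper97.PER.pate_poly m k B hB,
    Pool.Agent.helper97.PER.lsz_fac n m A hA B hB,
    Pool.Agent.helper97.PER.lsz_copies n m A hA B hB,
    fun h1 h2 => Pool.Agent.helper80.LSZ.lsz_low A B hA hB h1 h2⟩

end Pool.Agent.Results.MP_2dd521_co.CoherentComparison
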