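import Pool.Agent.helper59.PT.Main
import Pool.Agent.helper97.PTC.C

set_option linter.all false
set_option autoImplicit false

/-!
# Pate's conjecture for three copies, for matrices of every size (MP_2dd521_co)

For every complex positive semidefinite matrix `B` (of any size `m`)
`(3!) ^ m * (per B) ^ 3 ≤ per (J_3 ⊗ B)`.

The proof moves from `J_3` to `C_1 = circ (9/4, 3/4, 0)` along the segment `C_r` of circulants. At `C_1`
the permanent of `C_1 ⊗ B` is a sum of traces `Tr ((X Y) ^ 3)` with positive semidefinite matrices
`X, Y` of minors, and Hölder's inequality gives `(per C_1) ^ m (per B) ^ 3 ≤ per (C_1 ⊗ B)`. Along the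
segment `per (C_r ⊗ B) / (per C_r) ^ m` does not increase in `r`: this is an inequality for each row of
`B`, which follows from the positivity under a reflection of the ring of three kets and three bras
(Gaussian functional), by an explicit sum of squares in the creation and annihilation operators of
one row, with coefficients polynomial in `r`, checked by the kernel.
-/

namespace Pool.Agent.Results.MP_2dd521_co.PateThree

open scoped ComplexOrder

theorem result (m : ℕ) (B : Matrix (Fin m) (Fin m) ℂ) (hB : B.PosSemidef) :
    (6 : ℂ) ^ m * B.permanent ^ 3 ≤
      (Matrix.kronecker (Matrix.of fun _ _ : Fin 3 => (1 : ℂ)) B).permanent :=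
  Pool.Agent.helper59.PT.pateThree_of_CE Pool.Agent.helper97.PTC.ce m B hB

end Pool.Agent.Results.MP_2dd521_co.PateThree
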