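import Pool.Agent.helper97.PER.Z11

/-!
# The inequality of Liang, So and Zhang when one factor has small rank

The inequality `(per A) ^ m * (per B) ^ n ≤ per (A ⊗ B)` holds for all positive semidefinite `A`
(`n × n`) and `B` (`m × m`) with `(4 m) ^ 8 * rank A ≤ n`.
-/

set_option autoImplicit false
open scoped ComplexOrder

namespace Pool.Agent.Results.MP_2dd521_co.SmallRank

/-- The inequality of Liang, So and Zhang for a factor of small rank. -/
theorem result (n m : ℕ) (A : Matrix (Fin n) (Fin n) ℂ) (B : Matrix (Fin m) (Fin m) ℂ)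
    (hA : A.PosSemidef) (hB : B.PosSemidef) (h : (4 * m) ^ 8 * A.rank ≤ n) :
    A.permanent ^ m * B.permanent ^ n ≤ (Matrix.kronecker A B).permanent :=
  Pool.Agent.helper97.PER.small_rank n m A hA B hB h

end Pool.Agent.Results.MP_2dd521_co.SmallRank
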